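import Pool.Agent.Lib.MP_7ffa02_nt.ZeroFree

/-! Primes in intervals of relative length `θ` beyond `exp (C log² (1/θ))`. -/

open Complex Filter Topology MeasureTheory ArithmeticFunction
open scoped Real

namespace Pool.Agent.Lib.MP_7ffa02_nt

/-- the Gaussian test function -/
noncomputable def GG (a u : ℝ) (s : ℂ) : ℂ := cexp (a * (s - 1) ^ 2 + u * (s - 1))

/-- the matching weight on the integers -/
noncomputable def gw (a u : ℝ) (n : ℕ) : ℝ :=
  (n : ℝ)⁻¹ * Real.exp (-(u - Real.log n) ^ 2 / (4 * a))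

theorem norm_GG (a u σ t : ℝ) :
    ‖GG a u (σ + t * I)‖ = Real.exp (a * (σ - 1) ^ 2 + u * (σ - 1) - a * t ^ 2) := by
  rw [GG, norm_exp]
  congr 1
  simp [pow_two]
  ring

theorem term_GG (f : ℕ → ℂ) (a u : ℝ) {n : ℕ} (hn : n ≠ 0) (t : ℝ) :
    LSeries.term f ((2 : ℝ) + t * I) n * GG a u ((2 : ℝ) + t * I) =
      f n * cexp ((-a : ℝ) * (t : ℂ) ^ 2 + ((2 * a + (u - Real.log n) : ℝ) * I) * t +
        (a + u - 2 * Real.log n : ℝ)) := by
  rw [LSeries.term_of_ne_zero hn, div_eq_mul_inv, ← cpow_neg,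
    cpow_def_of_ne_zero (by exact_mod_cast hn), ← natCast_log, GG, mul_assoc, ← Complex.exp_add]
  congr 2
  push_cast
  linear_combination (a * t ^ 2 : ℂ) * I_sq

theorem sum_int {f : ℕ → ℂ} (hf : LSeriesSummable f (2 : ℝ)) {a : ℝ} (ha : 0 < a) (u : ℝ) :
    HasSum (fun n => f n * ((√(π / a) * gw a u n : ℝ) : ℂ) * (if n = 0 then 0 else 1))
      (∫ t : ℝ, LSeries f ((2 : ℝ) + t * I) * GG a u ((2 : ℝ) + t * I)) := by
  have hre : ((-a : ℝ) : ℂ).re < 0 := by simpa using ha
  have h := hasSum_integral_of_summable_integral_norm (μ := volume)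
    (F := fun n (t : ℝ) => LSeries.term f ((2 : ℝ) + t * I) n * GG a u ((2 : ℝ) + t * I))
    (fun n => by
      rcases eq_or_ne n 0 with rfl | hn
      · simp
      · simp_rw [term_GG f a u hn]
        exact (integrable_cexp_quadratic' hre _ _).const_mul _)
    (by
      refine ((summable_norm_iff.2 hf).mul_right
        (∫ t : ℝ, Real.exp (a + u - a * t ^ 2))).congr fun n => ?_
      rw [← integral_const_mul]
      refine integral_congr_ae (Eventually.of_forall fun t => ?_)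
      simp only [norm_mul, norm_GG, LSeries.norm_term_eq]
      norm_num)
  simp_rw [tsum_mul_right] at h
  refine (h.congr fun s => Finset.sum_congr rfl fun n _ => ?_)
  rcases eq_or_ne n 0 with rfl | hn
  · simp
  simp_rw [term_GG f a u hn]
  rw [integral_const_mul, integral_cexp_quadratic hre, if_neg hn, mul_one]
  congr 1
  have h0 : (0 : ℝ) < n := by positivity
  have e1 : ((π : ℂ) / -((-a : ℝ) : ℂ)) ^ (1 / 2 : ℂ) = ((√(π / a) : ℝ) : ℂ) := by
    rw [Real.sqrt_eq_rpow, ofReal_cpow (by positivity)]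
    push_cast
    simp
  have e2 : gw a u n = Real.exp (-Real.log n - (u - Real.log n) ^ 2 / (4 * a)) := by
    rw [gw, sub_eq_add_neg (-Real.log n), Real.exp_add, Real.exp_neg (Real.log n), Real.exp_log h0,
      neg_div]
  rw [e1, e2, ofReal_mul, ofReal_exp]
  congr 2
  generalize Real.log n = l
  have ha' : (a : ℂ) ≠ 0 := by exact_mod_cast ha.ne'
  push_cast
  rw [mul_pow, I_sq]
  field_simp
  ring

theorem FF_two (t : ℝ) : FF ((2 : ℝ) + t * I) = LSeries (lam - 1) ((2 : ℝ) + t * I) := by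
  have h1 : 1 < (((2 : ℝ) : ℂ) + t * I).re := by simp
  rw [FF_eq (fun h => by rw [h] at h1; simp at h1) (riemannZeta_ne_zero_of_one_le_re h1.le),
    LSeries_sub (f := lam) (g := 1) (LSeriesSummable_vonMangoldt h1) (LSeriesSummable_one_iff.2 h1),
    LSeries_one_eq_riemannZeta h1]
  congr 1
  exact (LSeries_vonMangoldt_eq_deriv_riemannZeta_div h1).symm

theorem summ_two : LSeriesSummable (lam - 1) (2 : ℝ) :=
  (LSeriesSummable_vonMangoldt (by simp)).sub (LSeriesSummable_one_iff.2 (by simp))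

theorem FF_bdd : ∃ B : ℝ, 0 ≤ B ∧ ∀ t : ℝ, ‖FF ((2 : ℝ) + t * I)‖ ≤ B := by
  have h := summable_norm_iff.2 summ_two
  refine ⟨∑' n, ‖LSeries.term (lam - 1) (2 : ℝ) n‖, tsum_nonneg fun _ => norm_nonneg _, fun t => ?_⟩
  rw [FF_two]
  exact tsum_of_norm_bounded h.hasSum fun n => LSeries.norm_term_le_of_re_le_re _ (by simp) n

theorem FF_diff {s : ℂ} (h : riemannZeta₁ s ≠ 0) : DifferentiableAt ℂ FF s :=
  ((differentiable_riemannZeta₁.deriv s).div (differentiable_riemannZeta₁ s) h).neg.sub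
    (differentiable_riemannZeta₀ s)

theorem GG_diff (a u : ℝ) : Differentiable ℂ (GG a u) := by unfold GG; fun_prop

theorem contour : ∃ c K : ℝ, 0 < c ∧ c ≤ 1 / 2 ∧ 0 ≤ K ∧ ∀ a u T : ℝ, 0 < a → a ≤ 1 → 0 ≤ u →
    14 ≤ T → ‖∫ t : ℝ, FF ((2 : ℝ) + t * I) * GG a u ((2 : ℝ) + t * I)‖ ≤
      K * (Real.exp (u - a * T ^ 2 / 2) * (√(π / (a / 2)) + T ^ 2) +
        T ^ 3 * Real.exp (-(u * (c / Real.log T)))) := by
  obtain ⟨c, C, hc0, hc1, hC, hR⟩ := region
  obtain ⟨B, hB0, hB⟩ := FF_bdd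
  refine ⟨c, Real.exp 1 * (B + 4 * C), hc0, hc1, by positivity, fun a u T ha ha1 hu hT => ?_⟩
  have hl := one_le_log (show 3 ≤ T by linarith)
  set d := c / Real.log T with hd
  have hd0 : 0 < d := by positivity
  have hd1 : d ≤ 1 / 2 := (div_le_self hc0.le hl).trans hc1
  set f : ℂ → ℂ := fun s => FF s * GG a u s with hf
  have hcont : Continuous fun t : ℝ => f ((2 : ℝ) + t * I) := by
    refine continuous_iff_continuousAt.2 fun t => ?_
    have h1 : 1 < (((2 : ℝ) : ℂ) + t * I).re := by simp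
    exact ContinuousAt.comp (f := fun t : ℝ => ((2 : ℝ) : ℂ) + t * I)
      ((FF_diff ((zeta1_ne fun h => by rw [h] at h1; simp at h1).2
        (riemannZeta_ne_zero_of_one_le_re h1.le))).mul (GG_diff a u _)).continuousAt (by fun_prop)
  have hn2 : ∀ t : ℝ, ‖f ((2 : ℝ) + t * I)‖ ≤ B * Real.exp (1 + u) * Real.exp (-a * t ^ 2) :=
    fun t => by
      rw [hf, norm_mul, norm_GG, mul_assoc, ← Real.exp_add]
      exact mul_le_mul (hB t) (Real.exp_le_exp.2 (by linarith)) (Real.exp_pos _).le hB0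
  have hint : Integrable fun t : ℝ => f ((2 : ℝ) + t * I) :=
    ((integrable_exp_neg_mul_sq ha).const_mul _).mono' hcont.aestronglyMeasurable
      (Eventually.of_forall hn2)
  have h1 := integral_add_compl (s := Set.Ioc (-T) T) measurableSet_Ioc hint
  rw [← intervalIntegral.integral_of_le (by linarith)] at h1
  have h2 : ‖∫ t : ℝ in (Set.Ioc (-T) T)ᶜ, f ((2 : ℝ) + t * I)‖ ≤
      B * Real.exp (1 + u - a * T ^ 2 / 2) * √(π / (a / 2)) := by
    have hi := (integrable_exp_neg_mul_sq (half_pos ha)).const_mul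
      (B * Real.exp (1 + u - a * T ^ 2 / 2))
    rw [← integral_gaussian, ← integral_const_mul]
    refine (norm_integral_le_of_norm_le hi.integrableOn ?_).trans
      (setIntegral_le_integral hi (Eventually.of_forall fun t => by positivity))
    refine ae_restrict_of_forall_mem measurableSet_Ioc.compl fun t ht => (hn2 t).trans ?_
    have h3 : T ^ 2 ≤ t ^ 2 := by
      simp only [Set.mem_compl_iff, Set.mem_Ioc, not_and_or, not_lt, not_le] at ht
      rcases ht with h | h <;> nlinarith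
    rw [mul_assoc, mul_assoc, ← Real.exp_add, ← Real.exp_add]
    exact mul_le_mul_of_nonneg_left (Real.exp_le_exp.2 (by nlinarith)) hB0
  have h3 := integral_boundary_rect_eq_zero_of_differentiableOn f ⟨1 - d, -T⟩ ⟨2, T⟩ fun s hs => by
    obtain ⟨h4, h5⟩ := mem_reProdIm.1 hs
    rw [Set.uIcc_of_le (by simp; linarith)] at h4 h5
    exact ((FF_diff (hR T hT s h4.1 h4.2 (abs_le.2 h5)).1).mul
      (GG_diff a u _)).differentiableWithinAt
  simp only [smul_eq_mul] at h3
  have h4 : ∀ y : ℝ, |y| = T → ‖∫ x : ℝ in (1 - d)..2, f (x + y * I)‖ ≤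
      C * T ^ 2 * Real.exp (1 + u - a * T ^ 2 / 2) * 2 := fun y hy => by
    refine (intervalIntegral.norm_integral_le_of_norm_le_const
      (C := C * T ^ 2 * Real.exp (1 + u - a * T ^ 2 / 2)) fun x hx => ?_).trans ?_
    · rw [Set.uIoc_of_le (by linarith)] at hx
      rw [hf, norm_mul, norm_GG]
      refine mul_le_mul (hR T hT _ (by simpa using hx.1.le) (by simpa using hx.2)
        (by simpa using hy.le)).2 (Real.exp_le_exp.2 ?_) (Real.exp_pos _).le (by positivity)
      have h5 : (x - 1) ^ 2 ≤ 1 := by nlinarith [hx.1, hx.2]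
      have h6 : y ^ 2 = T ^ 2 := by rw [← hy, sq_abs]
      have h7 : 0 ≤ a * T ^ 2 := by positivity
      rw [h6]
      nlinarith [hx.2]
    · gcongr
      rw [abs_le]
      constructor <;> linarith
  have h5 : ‖∫ y : ℝ in (-T)..T, f ((1 - d : ℝ) + y * I)‖ ≤
      C * T ^ 2 * Real.exp (1 - u * d) * (2 * T) := by
    refine (intervalIntegral.norm_integral_le_of_norm_le_const
      (C := C * T ^ 2 * Real.exp (1 - u * d)) fun y hy => ?_).trans ?_
    · rw [Set.uIoc_of_le (by linarith)] at hy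
      rw [hf, norm_mul, norm_GG]
      refine mul_le_mul (hR T hT _ (by simp [hd]) (by simp; linarith)
        (by simpa using abs_le.2 ⟨hy.1.le, hy.2⟩)).2 (Real.exp_le_exp.2 ?_) (Real.exp_pos _).le
        (by positivity)
      have h5 : (1 - d - 1) ^ 2 ≤ 1 := by nlinarith
      have h7 : 0 ≤ a * y ^ 2 := by positivity
      nlinarith
    · rw [abs_of_pos (by linarith)]
      exact le_of_eq (by ring)
  have h6 : ∫ y : ℝ in (-T)..T, f ((2 : ℝ) + y * I) =
      (∫ y : ℝ in (-T)..T, f ((1 - d : ℝ) + y * I)) +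
        I * ((∫ x : ℝ in (1 - d)..2, f (x + (-T : ℝ) * I)) -
          ∫ x : ℝ in (1 - d)..2, f (x + T * I)) := by
    linear_combination (-I) * h3 + ((∫ y : ℝ in (-T)..T, f ((2 : ℝ) + y * I)) -
      ∫ y : ℝ in (-T)..T, f ((1 - d : ℝ) + y * I)) * I_sq
  have h7 := h4 (-T) (by rw [abs_neg, abs_of_pos (by linarith)])
  have h8 := h4 T (abs_of_pos (by linarith))
  have hI : ∀ z : ℂ, ‖I * z‖ = ‖z‖ := fun z => by rw [norm_mul, norm_I, one_mul]
  have h9 := (norm_sub_le _ _).trans (add_le_add h7 h8)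
  rw [← hI] at h9
  change ‖∫ t : ℝ, f ((2 : ℝ) + t * I)‖ ≤ _
  rw [← h1, h6]
  refine (norm_add_le _ _).trans ((add_le_add ((norm_add_le _ _).trans (add_le_add h5 h9))
      h2).trans ?_)
  rw [show 1 + u - a * T ^ 2 / 2 = 1 + (u - a * T ^ 2 / 2) by ring, sub_eq_add_neg 1 (u * d),
    Real.exp_add, Real.exp_add]
  have p1 := Real.exp_pos 1
  have p2 := Real.exp_pos (u - a * T ^ 2 / 2)
  have p3 := Real.exp_pos (-(u * d))
  have p4 := Real.sqrt_nonneg (π / (a / 2))
  generalize Real.exp 1 = e1 at *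
  generalize Real.exp (u - a * T ^ 2 / 2) = e2 at *
  generalize Real.exp (-(u * d)) = e3 at *
  generalize √(π / (a / 2)) = q at *
  have q1 : 0 ≤ e1 * C * e2 * q := by positivity
  have q2 : 0 ≤ e1 * B * e2 * T ^ 2 := by positivity
  have q3 : 0 ≤ e1 * B * T ^ 3 * e3 := by positivity
  have q4 : 0 ≤ e1 * C * T ^ 3 * e3 := by positivity
  nlinarith

end Pool.Agent.Lib.MP_7ffa02_nt
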