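import Pool.Agent.Lib.MP_164d34_nt.ZetaBound

/-! The classical zero-free region of the zeta function, with a crude bound for the logarithmic
derivative inside it. -/

open Complex Filter Topology Metric Finset ArithmeticFunction
open scoped ComplexConjugate
open Pool.Agent.Lib.MP_164d34_nt

namespace Pool.Agent.Lib.MP_7ffa02_nt

theorem pf0 {F : ℂ → ℂ} (hF : DifferentiableOn ℂ F (ball 0 2)) {L : ℝ} (hL : 1 ≤ L)
    (h0 : F 0 ≠ 0) (hb : ∀ w, ‖w‖ = 19 / 10 → ‖F w‖ ≤ Real.exp L * ‖F 0‖) :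
    ∃ (M : ℕ) (z : Fin M → ℂ), (M : ℝ) ≤ 19 * L ∧ (∀ j, F (z j) = 0 ∧ ‖z j‖ ≤ 18 / 10) ∧
      ∀ w, ‖w‖ ≤ 16 / 10 → (∀ j, w ≠ z j) →
        F w ≠ 0 ∧ ‖deriv F w / F w - ∑ j, 1 / (w - z j)‖ ≤ 20000 * L := by
  obtain ⟨M, z, h, hz, hh, e, hne⟩ := zb_factor hF h0 hb
  have hM := zb_count h0 hb hz hh e
  have h3 : ‖F 0‖ ≤ (18 / 10) ^ M * ‖h 0‖ := by
    rw [e, norm_mul, norm_prod]
    gcongr
    calc _ ≤ ∏ _j : Fin M, (18 / 10 : ℝ) := prod_le_prod (fun _ _ => norm_nonneg _) fun j _ => by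
          simpa using hz j
      _ = _ := by simp [div_pow]
  have h18 : (18 : ℝ) ≤ Real.exp 3 := by
    have h1 : (2.7 : ℝ) ^ 3 ≤ Real.exp 1 ^ 3 :=
      pow_le_pow_left₀ (by norm_num) (by linarith [Real.exp_one_gt_d9]) 3
    rw [Real.exp_one_pow] at h1
    norm_num at h1 ⊢
    linarith
  have hbd : ∀ w ∈ ball (0 : ℂ) (18 / 10), ‖h w‖ ≤ Real.exp (58 * L) * ‖h 0‖ := by
    intro w hw
    refine Complex.norm_le_of_forall_mem_frontier_norm_le (U := ball 0 (19 / 10)) isBounded_ball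
      (DifferentiableOn.diffContOnCl (hh.mono ?_)) (fun w hw => ?_) ?_
    · rw [closure_ball _ (by norm_num)]
      exact closedBall_subset_ball (by norm_num)
    · rw [frontier_ball _ (by norm_num), mem_sphere_zero_iff_norm] at hw
      have h1 : (1 / 10 : ℝ) ^ M * ‖h w‖ ≤ ‖F w‖ := by
        rw [e, norm_mul, norm_prod]
        gcongr
        calc (1 / 10 : ℝ) ^ M = ∏ _j : Fin M, (1 / 10 : ℝ) := by simp
          _ ≤ _ := prod_le_prod (fun _ _ => by norm_num) fun j _ => by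
            linarith [norm_sub_norm_le w (z j), hz j]
      have h2 : (18 : ℝ) ^ M ≤ Real.exp (57 * L) := by
        calc (18 : ℝ) ^ M ≤ Real.exp 3 ^ M := pow_le_pow_left₀ (by norm_num) h18 M
          _ = Real.exp (M * 3) := (Real.exp_nat_mul _ _).symm
          _ ≤ _ := Real.exp_le_exp.2 (by linarith)
      calc ‖h w‖ = 10 ^ M * ((1 / 10 : ℝ) ^ M * ‖h w‖) := by
            rw [← mul_assoc, ← mul_pow]; norm_num
        _ ≤ 10 ^ M * (Real.exp L * ((18 / 10) ^ M * ‖h 0‖)) := by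
            refine mul_le_mul_of_nonneg_left ?_ (by positivity)
            exact h1.trans ((hb w hw).trans (by gcongr))
        _ = 18 ^ M * Real.exp L * ‖h 0‖ := by
            rw [show (18 : ℝ) ^ M = 10 ^ M * (18 / 10) ^ M by rw [← mul_pow]; norm_num]
            ring
        _ ≤ Real.exp (57 * L) * Real.exp L * ‖h 0‖ := by gcongr
        _ = _ := by rw [← Real.exp_add]; ring_nf
    · exact subset_closure (ball_subset_ball (by norm_num) hw)
  refine ⟨M, z, hM, fun j => ⟨?_, hz j⟩, fun w hw hdz => ?_⟩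
  · rw [e, prod_eq_zero (mem_univ j) (sub_self _), zero_mul]
  have hzne : ∀ j, w - z j ≠ 0 := fun j => sub_ne_zero.2 (hdz j)
  have hhw : h w ≠ 0 := hne w (by linarith)
  have hP : (∏ j, (w - z j)) ≠ 0 := prod_ne_zero_iff.2 fun j _ => hzne j
  refine ⟨by rw [e]; exact mul_ne_zero hP hhw, ?_⟩
  have hl := zb_logderiv (hh.mono (ball_subset_ball (by norm_num))) (A := 58 * L) (by linarith)
    (fun v hv => hne v (mem_ball_zero_iff.1 hv).le) hbd hw
  have hFe : F = fun x => (∏ j, (x - z j)) * h x := funext e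
  have h1 : logDeriv F w = ∑ j, 1 / (w - z j) + logDeriv h w := by
    rw [hFe, logDeriv_mul w hP hhw (by fun_prop)
      (hh.differentiableAt (isOpen_ball.mem_nhds (mem_ball_zero_iff.2 (by linarith)))),
      logDeriv_prod (f := fun j x => x - z j) (fun j _ => hzne j) (fun j _ => by fun_prop)]
    refine congrArg (· + logDeriv h w) (sum_congr rfl fun j _ => ?_)
    rw [logDeriv_apply]
    simp
  rw [← logDeriv_apply, h1, add_sub_cancel_left, logDeriv_apply]
  linarith

theorem one_le_log {t : ℝ} (ht : 3 ≤ t) : 1 ≤ Real.log t := by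
  rw [Real.le_log_iff_exp_le (by linarith)]
  linarith [Real.exp_one_lt_d9]

theorem pf : ∃ A : ℝ, 1 ≤ A ∧ ∀ t : ℝ, 11 ≤ t → ∃ (M : ℕ) (z : Fin M → ℂ),
    (M : ℝ) ≤ A * Real.log t ∧ (∀ j, riemannZeta (z j) = 0 ∧ |(z j).im - t| ≤ 2) ∧
      ∀ s : ℂ, s.im = t → 1 / 2 ≤ s.re → s.re ≤ 2 → (∀ j, s ≠ z j) → riemannZeta s ≠ 0 ∧
        ‖deriv riemannZeta s / riemannZeta s - ∑ j, 1 / (s - z j)‖ ≤ A * Real.log t := by
  obtain ⟨A, hA, hd⟩ := zb_disc
  refine ⟨20000 * A, by linarith, fun t ht => ?_⟩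
  have hl := one_le_log (show 3 ≤ t by linarith)
  set c : ℂ := 2 + t * I with hc
  have hc' : (2 + (((t - 1 / 2 : ℝ) : ℂ) + 1 / 2) * I : ℂ) = c := by rw [hc]; push_cast; ring
  have hF : DifferentiableOn ℂ (fun w => riemannZeta (c + w)) (ball 0 2) := fun w hw => by
    refine ((differentiableAt_riemannZeta ?_).comp w (by fun_prop)).differentiableWithinAt
    intro h
    have h1 := congrArg im h
    have h2 := abs_le.1 ((abs_im_le_norm w).trans (mem_ball_zero_iff.1 hw).le)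
    simp [hc] at h1
    linarith
  have h0 : riemannZeta (c + 0) ≠ 0 := riemannZeta_ne_zero_of_one_le_re (by simp [hc])
  obtain ⟨M, z, hM, hz, hw⟩ := pf0 hF (L := A * Real.log t) (by nlinarith) h0 fun w hw => by
    have h1 := hd (t - 1 / 2) (by linarith) w hw
    rw [hc'] at h1
    rw [add_zero]
    refine h1.trans (mul_le_mul_of_nonneg_right (Real.exp_le_exp.2 ?_) (norm_nonneg _))
    exact mul_le_mul_of_nonneg_left (Real.log_le_log (by linarith) (by linarith)) (by linarith)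
  refine ⟨M, fun j => c + z j, by nlinarith, fun j => ⟨(hz j).1, ?_⟩, fun s h1 h2 h3 h4 => ?_⟩
  · have := (abs_im_le_norm (z j)).trans (hz j).2
    simp only [hc, add_im, mul_im, ofReal_re, I_im, ofReal_im, I_re, im_ofNat]
    rw [show 0 + (t * 1 + 0 * 0) + (z j).im - t = (z j).im by ring]
    linarith
  · have e1 : s - c = ((s.re - 2 : ℝ) : ℂ) := by
      apply Complex.ext <;> simp [hc, h1]
    have h5 := hw (s - c) (by rw [e1, norm_real, Real.norm_eq_abs, abs_le]; constructor <;> linarith)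
      fun j hj => h4 j (by simp only [← hj]; ring)
    rw [deriv_comp_const_add, add_sub_cancel] at h5
    refine ⟨h5.1, le_trans (le_of_eq ?_) (h5.2.trans (le_of_eq (by ring)))⟩
    simp only [sub_sub]

/-- the von Mangoldt function with complex values -/
noncomputable def lam (n : ℕ) : ℂ := (vonMangoldt n : ℝ)

theorem re_term (σ t : ℝ) (n : ℕ) : (LSeries.term lam (σ + t * I) n).re =
    vonMangoldt n * (n : ℝ) ^ (-σ) * Real.cos (t * Real.log n) := by
  rcases eq_or_ne n 0 with rfl | hn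
  · simp
  have h0 : (0 : ℝ) < n := by positivity
  rw [LSeries.term_def₀ (by simp [lam]), lam, cpow_def_of_ne_zero (by exact_mod_cast hn), re_ofReal_mul,
    exp_re, ← natCast_log, Real.rpow_def_of_pos h0, mul_assoc]
  generalize Real.log n = l
  simp [mul_comm]

theorem three_four_one {σ : ℝ} (hσ : 1 < σ) (t : ℝ) :
    0 ≤ 3 * (LSeries lam (σ + (0 : ℝ) * I)).re + 4 * (LSeries lam (σ + t * I)).re +
      (LSeries lam (σ + (2 * t : ℝ) * I)).re := by
  have h : ∀ u : ℝ, HasSum (fun n : ℕ => vonMangoldt n * (n : ℝ) ^ (-σ) * Real.cos (u * Real.log n))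
      (LSeries lam (σ + u * I)).re := fun u => by
    have := hasSum_re (LSeriesSummable_vonMangoldt (s := σ + u * I) (by simpa using hσ)).hasSum
    exact (funext (re_term σ u) : _ = _) ▸ this
  refine ((((h 0).mul_left 3).add ((h t).mul_left 4)).add (h (2 * t))).nonneg fun n => ?_
  have h1 : 0 ≤ vonMangoldt n * (n : ℝ) ^ (-σ) :=
    mul_nonneg vonMangoldt_nonneg (Real.rpow_nonneg (Nat.cast_nonneg _) _)
  rw [zero_mul, Real.cos_zero, mul_assoc 2 t, Real.cos_two_mul]
  nlinarith [mul_nonneg h1 (sq_nonneg (Real.cos (t * Real.log n) + 1))]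

theorem zeta1_ne {s : ℂ} (h : s ≠ 1) : riemannZeta₁ s ≠ 0 ↔ riemannZeta s ≠ 0 := by
  rw [riemannZeta_eq_inv_sub_mul h, mul_ne_zero_iff]
  exact ⟨fun h1 => ⟨inv_ne_zero (sub_ne_zero.2 h), h1⟩, fun h1 => h1.2⟩

theorem logd_eq {s : ℂ} (h : s ≠ 1) (h0 : riemannZeta s ≠ 0) :
    -deriv riemannZeta s / riemannZeta s = (s - 1)⁻¹ - deriv riemannZeta₁ s / riemannZeta₁ s := by
  have h1 := (zeta1_ne h).2 h0
  have h2 := sub_ne_zero.2 h
  rw [deriv_riemannZeta_eq_neg_inv_sub_sq_mul_add h, riemannZeta_eq_inv_sub_mul h]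
  field_simp
  ring

theorem near : ∃ c B : ℝ, 0 < c ∧ c ≤ 1 / 2 ∧ 0 ≤ B ∧ ∀ s : ℂ, 1 - c ≤ s.re → s.re ≤ 2 →
    |s.im| ≤ 14 → riemannZeta₁ s ≠ 0 ∧ ‖deriv riemannZeta₁ s / riemannZeta₁ s‖ ≤ B ∧
      ‖riemannZeta₀ s‖ ≤ B := by
  have hK : ∀ a : ℝ, IsCompact (Set.Icc a 2 ×ℂ Set.Icc (-14 : ℝ) 14) := fun a =>
    isCompact_Icc.reProdIm isCompact_Icc
  have hO : IsOpen {s | riemannZeta₁ s ≠ 0} :=
    isOpen_ne_fun differentiable_riemannZeta₁.continuous continuous_const
  obtain ⟨δ, hδ, hs⟩ := (hK 1).exists_cthickening_subset_open hO fun s hs => by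
    rcases eq_or_ne s 1 with rfl | h
    · simp
    · exact (zeta1_ne h).2 (riemannZeta_ne_zero_of_one_le_re (mem_reProdIm.1 hs).1.1)
  set c := min δ (1 / 2) with hc
  have hc0 : 0 < c := by positivity
  have hne : ∀ s ∈ Set.Icc (1 - c) 2 ×ℂ Set.Icc (-14 : ℝ) 14, riemannZeta₁ s ≠ 0 := fun s h => by
    obtain ⟨⟨h1, h2⟩, h3⟩ := mem_reProdIm.1 h
    refine hs (mem_cthickening_of_dist_le s ((max s.re 1 : ℝ) + s.im * I) δ _
      (mem_reProdIm.2 ⟨?_, by simpa using h3⟩) ?_)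
    · simpa using h2
    · have e : s - ((max s.re 1 : ℝ) + s.im * I) = ((s.re - max s.re 1 : ℝ) : ℂ) := by
        apply Complex.ext <;> simp
      rw [dist_eq_norm, e, norm_real, Real.norm_eq_abs, abs_le]
      have := min_le_left δ (1 / 2)
      constructor
      · rcases le_total s.re 1 with h | h
        · rw [max_eq_right h]; linarith
        · rw [max_eq_left h]; linarith
      · linarith [le_max_left s.re 1]
  obtain ⟨B1, hB1⟩ := (hK (1 - c)).exists_bound_of_continuousOn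
    (f := fun s => deriv riemannZeta₁ s / riemannZeta₁ s)
    (differentiable_riemannZeta₁.deriv.continuous.continuousOn.div
      differentiable_riemannZeta₁.continuous.continuousOn hne)
  obtain ⟨B2, hB2⟩ := (hK (1 - c)).exists_bound_of_continuousOn
    differentiable_riemannZeta₀.continuous.continuousOn
  refine ⟨c, |B1| + |B2|, hc0, min_le_right _ _, by positivity, fun s h1 h2 h3 => ?_⟩
  have hm : s ∈ Set.Icc (1 - c) 2 ×ℂ Set.Icc (-14 : ℝ) 14 :=
    mem_reProdIm.2 ⟨⟨h1, h2⟩, abs_le.1 h3⟩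
  exact ⟨hne s hm, by linarith [hB1 s hm, le_abs_self B1, abs_nonneg B2],
    by linarith [hB2 s hm, le_abs_self B2, abs_nonneg B1]⟩

theorem re_sum_ge {M : ℕ} {z : Fin M → ℂ} {s : ℂ} (h : ∀ j, (z j).re < s.re) (j : Fin M) :
    0 ≤ (1 / (s - z j)).re := by
  rw [one_div, inv_re]
  exact div_nonneg (by simpa using (h j).le) (normSq_nonneg _)

theorem zero_re_lt {ρ : ℂ} (h : riemannZeta ρ = 0) : ρ.re < 1 :=
  not_le.1 fun h1 => riemannZeta_ne_zero_of_one_le_re h1 h

theorem zero_free : ∃ c : ℝ, 0 < c ∧ c ≤ 1 / 2 ∧ ∀ T : ℝ, 14 ≤ T → ∀ ρ : ℂ, riemannZeta ρ = 0 →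
    0 ≤ ρ.im → ρ.im ≤ T → ρ.re ≤ 1 - c / Real.log T := by
  obtain ⟨c0, B, hc0, hc1, hB, hn⟩ := near
  obtain ⟨A, hA, hp⟩ := pf
  set E := 3 * B + 6 * A with hE
  have hE1 : 1 ≤ E := by linarith
  refine ⟨min c0 (1 / (14 * E)), by positivity, (min_le_left _ _).trans hc1,
    fun T hT ρ h0 h1 h2 => ?_⟩
  have hlT := one_le_log (show 3 ≤ T by linarith)
  have hlt := zero_re_lt h0
  have hm : min c0 (1 / (14 * E)) / Real.log T ≤ c0 :=
    (div_le_self (by positivity) hlT).trans (min_le_left _ _)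
  by_cases h14 : ρ.im ≤ 14
  · by_contra hcon
    have hne : ρ ≠ 1 := by rintro rfl; simp at hlt
    exact (zeta1_ne hne).1 (hn ρ (by linarith) (by linarith) (by rwa [abs_of_nonneg h1])).1 h0
  by_cases hh : ρ.re < 1 / 2
  · linarith
  push Not at h14 hh
  set t := ρ.im with ht
  have hl := one_le_log (show 3 ≤ t by linarith)
  set η := 1 / (2 * E * Real.log t) with hη
  have hη0 : 0 < η := by positivity
  have hη1 : η ≤ 1 := by
    rw [hη, div_le_one (by positivity)]
    nlinarith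
  have key : ∀ u : ℝ, LSeries lam (((1 + η : ℝ) : ℂ) + u * I) =
      -deriv riemannZeta (((1 + η : ℝ) : ℂ) + u * I) / riemannZeta (((1 + η : ℝ) : ℂ) + u * I) :=
    fun u => LSeries_vonMangoldt_eq_deriv_riemannZeta_div
      (s := ((1 + η : ℝ) : ℂ) + u * I) (by simpa using hη0)
  have h341 := three_four_one (σ := 1 + η) (by linarith) t
  have ha : (LSeries lam (((1 + η : ℝ) : ℂ) + (0 : ℝ) * I)).re ≤ 1 / η + B := by
    have hne : ((1 + η : ℝ) : ℂ) + (0 : ℝ) * I ≠ 1 := fun h => by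
      have := congrArg re h
      simp at this
      linarith
    rw [key, logd_eq hne (riemannZeta_ne_zero_of_one_le_re (by simpa using hη0.le)), sub_re]
    have h3 := (hn (((1 + η : ℝ) : ℂ) + (0 : ℝ) * I) (by simp; linarith) (by simp; linarith)
      (by simp)).2.1
    have h4 := abs_le.1 ((abs_re_le_norm _).trans h3)
    have e : (((1 + η : ℝ) : ℂ) + (0 : ℝ) * I - 1)⁻¹ = ((1 / η : ℝ) : ℂ) := by
      push_cast; ring
    rw [e, ofReal_re]
    linarith [h4.1]
  have hgen : ∀ u : ℝ, 11 ≤ u → ∀ (M : ℕ) (z : Fin M → ℂ), (∀ j, riemannZeta (z j) = 0) →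
      ((∀ j, ((1 + η : ℝ) : ℂ) + u * I ≠ z j) →
        ‖deriv riemannZeta (((1 + η : ℝ) : ℂ) + u * I) / riemannZeta (((1 + η : ℝ) : ℂ) + u * I) -
          ∑ j, 1 / (((1 + η : ℝ) : ℂ) + u * I - z j)‖ ≤ A * Real.log u) →
      (LSeries lam (((1 + η : ℝ) : ℂ) + u * I)).re ≤
        A * Real.log u - ∑ j, (1 / (((1 + η : ℝ) : ℂ) + u * I - z j)).re := by
    intro u hu M z hz hw
    have h3 := hw fun j hj =>
      riemannZeta_ne_zero_of_one_le_re (by rw [← hj]; simpa using hη0.le) (hz j)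
    have h4 := abs_le.1 ((abs_re_le_norm _).trans h3)
    rw [sub_re, re_sum] at h4
    rw [key, neg_div, neg_re]
    linarith [h4.1]
  have hlt' : ∀ (u : ℝ) {w : ℂ}, riemannZeta w = 0 → w.re < (((1 + η : ℝ) : ℂ) + u * I).re :=
    fun u w hw => by
      have := zero_re_lt hw
      simp
      linarith
  have hb : (LSeries lam (((1 + η : ℝ) : ℂ) + t * I)).re ≤ A * Real.log t - 1 / (1 + η - ρ.re) := by
    obtain ⟨M, z, -, hz, hw⟩ := hp t (by linarith)
    have h3 := hgen t (by linarith) M z (fun j => (hz j).1) fun h =>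
      (hw _ (by simp) (by simp; linarith) (by simp; linarith) h).2
    obtain ⟨j, hj⟩ : ∃ j, ρ = z j := by
      by_contra hcon
      push Not at hcon
      exact (hw ρ rfl hh (by linarith) hcon).1 h0
    have h4 := single_le_sum (f := fun j => (1 / (((1 + η : ℝ) : ℂ) + t * I - z j)).re)
      (fun j _ => re_sum_ge (fun j => hlt' t (hz j).1) j) (mem_univ j)
    have e : 1 / (((1 + η : ℝ) : ℂ) + t * I - z j) = ((1 / (1 + η - ρ.re) : ℝ) : ℂ) := by
      rw [← hj, show ((1 + η : ℝ) : ℂ) + t * I - ρ = ((1 + η - ρ.re : ℝ) : ℂ) by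
        apply Complex.ext <;> simp [ht]]
      push_cast; rfl
    simp only [e, ofReal_re] at h4
    linarith
  have hc : (LSeries lam (((1 + η : ℝ) : ℂ) + (2 * t : ℝ) * I)).re ≤ 2 * A * Real.log t := by
    obtain ⟨M, z, -, hz, hw⟩ := hp (2 * t) (by linarith)
    have h3 := hgen (2 * t) (by linarith) M z (fun j => (hz j).1) fun h =>
      (hw _ (by simp) (by simp; linarith) (by simp; linarith) h).2
    have h4 : 0 ≤ ∑ j, (1 / (((1 + η : ℝ) : ℂ) + (2 * t : ℝ) * I - z j)).re :=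
      sum_nonneg fun j _ => re_sum_ge (fun j => hlt' (2 * t) (hz j).1) j
    have h5 : Real.log (2 * t) ≤ 2 * Real.log t := by
      rw [Real.log_mul (by norm_num) (by linarith)]
      linarith [Real.log_le_log (by norm_num) (show (2 : ℝ) ≤ t by linarith)]
    nlinarith
  have e1 : E * Real.log t = 1 / (2 * η) := by rw [hη]; field_simp
  have h5 : 4 * (1 / (1 + η - ρ.re)) ≤ 7 / (2 * η) := by
    have : 3 * B + 6 * A * Real.log t ≤ E * Real.log t := by rw [hE]; nlinarith
    have e2 : 7 / (2 * η) = 3 * (1 / η) + 1 / (2 * η) := by field_simp; ring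
    linarith
  rw [mul_one_div, div_le_div_iff₀ (by linarith) (by positivity)] at h5
  have h6 : min c0 (1 / (14 * E)) / Real.log T ≤ η / 7 := by
    calc _ ≤ 1 / (14 * E) / Real.log t := by
          gcongr
          exact min_le_right _ _
      _ = η / 7 := by rw [hη]; field_simp; ring
  linarith

/-- the Dirichlet series of `Λ - 1`, continued across `1` -/
noncomputable def FF (s : ℂ) : ℂ := -(deriv riemannZeta₁ s / riemannZeta₁ s) - riemannZeta₀ s

theorem FF_eq {s : ℂ} (h : s ≠ 1) (h0 : riemannZeta s ≠ 0) :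
    FF s = -deriv riemannZeta s / riemannZeta s - riemannZeta s := by
  rw [logd_eq h h0, FF, riemannZeta_eq_inv_sub_add h]
  ring

theorem high : ∃ c C : ℝ, 0 < c ∧ 0 ≤ C ∧ ∀ T : ℝ, 14 ≤ T → ∀ s : ℂ,
    1 - c / Real.log T ≤ s.re → s.re ≤ 2 → 14 ≤ s.im → s.im ≤ T → riemannZeta s ≠ 0 ∧
      ‖deriv riemannZeta s / riemannZeta s‖ + ‖riemannZeta s‖ ≤ C * T ^ 2 := by
  obtain ⟨c, hc0, hc1, hz⟩ := zero_free
  obtain ⟨A, hA, hp⟩ := pf
  obtain ⟨C, hC, hζ⟩ := zb_upper
  refine ⟨c / 4, A * (4 / c) + A + 2 * C, by positivity, by positivity,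
    fun T hT s h1 h2 h3 h4 => ?_⟩
  have hlT := one_le_log (show 3 ≤ T by linarith)
  have hlT' : Real.log T ≤ T := (Real.log_le_sub_one_of_pos (by linarith)).trans (by linarith)
  have hl : Real.log s.im ≤ Real.log T := Real.log_le_log (by linarith) h4
  have hd : c / 4 / Real.log T ≤ 1 / 8 := (div_le_self (by positivity) hlT).trans (by linarith)
  obtain ⟨M, z, hM, hzz, hw⟩ := hp s.im (by linarith)
  have hfar : ∀ j, c / 4 / Real.log T ≤ ‖s - z j‖ := fun j => by
    have h5 := abs_le.1 (hzz j).2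
    have h6 := hz (T + 2) (by linarith) (z j) (hzz j).1 (by linarith) (by linarith)
    have h7 : Real.log (T + 2) ≤ 2 * Real.log T := by
      rw [← Real.log_rpow (by linarith)]
      refine Real.log_le_log (by linarith) ?_
      rw [Real.rpow_two]
      nlinarith
    have h8 : c / (2 * Real.log T) ≤ c / Real.log (T + 2) :=
      div_le_div_of_nonneg_left hc0.le (Real.log_pos (by linarith)) h7
    have e : c / (2 * Real.log T) = 2 * (c / 4 / Real.log T) := by field_simp; ring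
    refine le_trans ?_ (re_le_norm _)
    rw [sub_re]
    linarith
  have hd0 : 0 < c / 4 / Real.log T := by positivity
  obtain ⟨h5, h6⟩ := hw s rfl (by linarith) h2 fun j hj => by
    have := hfar j
    rw [hj, sub_self, norm_zero] at this
    linarith
  refine ⟨h5, ?_⟩
  have h7 : ‖∑ j, 1 / (s - z j)‖ ≤ M * (4 / c * Real.log T) := by
    refine (norm_sum_le _ _).trans ?_
    calc ∑ j, ‖1 / (s - z j)‖ ≤ ∑ _j : Fin M, 4 / c * Real.log T := by
          refine sum_le_sum fun j _ => ?_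
          rw [norm_div, norm_one]
          refine (div_le_div_of_nonneg_left zero_le_one hd0 (hfar j)).trans (le_of_eq ?_)
          field_simp
      _ = _ := by simp
  have h8 := hζ s (by linarith) (by linarith)
  have h9 : ‖s‖ ≤ 2 * T := by
    refine (norm_le_abs_re_add_abs_im _).trans ?_
    rw [abs_of_pos (by linarith), abs_of_pos (by linarith)]
    linarith
  have h10 := norm_sub_norm_le (deriv riemannZeta s / riemannZeta s) (∑ j, 1 / (s - z j))
  have h11 : (M : ℝ) * (4 / c * Real.log T) ≤ A * T * (4 / c * T) := by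
    gcongr
    exact hM.trans (by gcongr; linarith)
  have h12 : A * Real.log s.im ≤ A * T ^ 2 := by
    gcongr
    nlinarith
  have h13 : C * ‖s‖ ≤ C * (2 * T ^ 2) := by
    gcongr
    nlinarith
  nlinarith

theorem region : ∃ c C : ℝ, 0 < c ∧ c ≤ 1 / 2 ∧ 1 ≤ C ∧ ∀ T : ℝ, 14 ≤ T → ∀ s : ℂ,
    1 - c / Real.log T ≤ s.re → s.re ≤ 2 → |s.im| ≤ T →
      riemannZeta₁ s ≠ 0 ∧ ‖FF s‖ ≤ C * T ^ 2 := by
  obtain ⟨c0, B, hc0, hc1, hB, hn⟩ := near
  obtain ⟨c, C, hc, hC, hh⟩ := high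
  refine ⟨min c0 c, 1 + 2 * B + C, by positivity, (min_le_left _ _).trans hc1, by linarith,
    fun T hT s h1 h2 h3 => ?_⟩
  have hlT := one_le_log (show 3 ≤ T by linarith)
  have hT2 : 1 ≤ T ^ 2 := by nlinarith
  by_cases h14 : |s.im| ≤ 14
  · have hm : min c0 c / Real.log T ≤ c0 :=
      (div_le_self (by positivity) hlT).trans (min_le_left _ _)
    obtain ⟨h4, h5, h6⟩ := hn s (by linarith) h2 h14
    refine ⟨h4, (norm_sub_le _ _).trans ?_⟩
    rw [norm_neg]
    nlinarith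
  have hm : min c0 c / Real.log T ≤ c / Real.log T := by
    gcongr
    exact min_le_right _ _
  have hne : s ≠ 1 := by rintro rfl; simp at h14
  have key : riemannZeta s ≠ 0 ∧
      ‖deriv riemannZeta s / riemannZeta s‖ + ‖riemannZeta s‖ ≤ C * T ^ 2 := by
    rcases le_total 0 s.im with h | h
    · rw [abs_of_nonneg h] at h3 h14
      exact hh T hT s (by linarith) h2 (by linarith) h3
    · rw [abs_of_nonpos h] at h3 h14
      have h4 := hh T hT (conj s) (by simp; linarith) (by simpa using h2) (by simp; linarith)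
        (by simpa using h3)
      have h5 := sym_iter_conj 1 s
      rw [iteratedDeriv_one] at h5
      rw [h5, riemannZeta_conj, ← map_div₀, norm_conj, norm_conj, map_ne_zero] at h4
      exact h4
  refine ⟨(zeta1_ne hne).2 key.1, ?_⟩
  rw [FF_eq hne key.1]
  refine (norm_sub_le _ _).trans ?_
  rw [neg_div, norm_neg]
  nlinarith [key.2]

end Pool.Agent.Lib.MP_7ffa02_nt
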