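import Mathlib

/-! The closure of the values of the divisor function with negative real exponent: basic facts and
the upper bound for the number of components in terms of the last gap-making prime. -/

open Finset

namespace Pool.Agent.Lib.MP_7ffa02_nt

/-- the divisor function with exponent `-r` -/
noncomputable def sg (r : ℝ) (n : ℕ) : ℝ := ∑ d ∈ n.divisors, (d : ℝ) ^ (-r)

/-- the closure of its values -/
def KK (r : ℝ) : Set ℝ := closure (sg r '' {n | 1 ≤ n})

theorem sg_mul (r : ℝ) {m n : ℕ} (h : m.Coprime n) : sg r (m * n) = sg r m * sg r n := by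
  unfold sg
  rw [Nat.divisors_mul, Finset.mul_def, sum_image (fun x hx y hy e =>
    h.mul_injOn_divisors (by simpa using hx) (by simpa using hy) e), sum_product, sum_mul_sum]
  refine sum_congr rfl fun a _ => sum_congr rfl fun b _ => ?_
  rw [Nat.cast_mul, Real.mul_rpow (Nat.cast_nonneg _) (Nat.cast_nonneg _)]

theorem sg_pow (r : ℝ) {p : ℕ} (hp : p.Prime) (k : ℕ) :
    sg r (p ^ k) = ∑ j ∈ range (k + 1), ((p : ℝ) ^ (-r)) ^ j := by
  rw [sg, Nat.sum_divisors_prime_pow hp]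
  refine sum_congr rfl fun j _ => ?_
  rw [Nat.cast_pow, ← Real.rpow_natCast, ← Real.rpow_natCast, ← Real.rpow_mul (Nat.cast_nonneg _),
    ← Real.rpow_mul (Nat.cast_nonneg _), mul_comm]

theorem sg_mono (r : ℝ) {m n : ℕ} (hn : n ≠ 0) (h : m ∣ n) : sg r m ≤ sg r n :=
  sum_le_sum_of_subset_of_nonneg (Nat.divisors_subset_of_dvd hn h)
    fun _ _ _ => Real.rpow_nonneg (Nat.cast_nonneg _) _

theorem sg_one (r : ℝ) : sg r 1 = 1 := by simp [sg]

theorem one_le_sg (r : ℝ) {n : ℕ} (hn : n ≠ 0) : 1 ≤ sg r n :=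
  (sg_one r).symm.le.trans (sg_mono r hn (one_dvd n))

/-- all prime factors are larger than `N` -/
def Rough (N m : ℕ) : Prop := m ≠ 0 ∧ ∀ p : ℕ, p.Prime → p ∣ m → N < p

theorem sg_rough {r : ℝ} (hr : 2 ≤ r) {N m : ℕ} (hN : N ≠ 0) (h : Rough N m) :
    sg r m ≤ 1 + 1 / N := by
  have h1 : m.divisors ⊆ insert 1 (Ioc N (max N m)) := by
    intro d hd
    have hd' := Nat.dvd_of_mem_divisors hd
    rcases eq_or_ne d 1 with rfl | h1
    · simp
    · have := h.2 _ (Nat.minFac_prime h1) ((Nat.minFac_dvd d).trans hd')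
      have h2 := Nat.minFac_le (Nat.pos_of_mem_divisors hd)
      have h3 := Nat.divisor_le hd
      simp only [mem_insert, mem_Ioc]
      right
      omega
  have h2 := sum_Ioc_inv_sq_le_sub (α := ℝ) hN (le_max_left N m)
  have h3 : (0 : ℝ) ≤ ((max N m : ℕ) : ℝ)⁻¹ := by positivity
  refine (sum_le_sum_of_subset_of_nonneg h1
    fun _ _ _ => Real.rpow_nonneg (Nat.cast_nonneg _) _).trans ?_
  rw [sum_insert (by simp; omega)]
  have h4 : ∑ d ∈ Ioc N (max N m), (d : ℝ) ^ (-r) ≤ ∑ d ∈ Ioc N (max N m), ((d : ℝ) ^ 2)⁻¹ := by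
    refine sum_le_sum fun d hd => ?_
    have : (1 : ℝ) ≤ d := by exact_mod_cast (by have := (mem_Ioc.1 hd).1; omega : 1 ≤ d)
    rw [← Real.rpow_natCast, ← Real.rpow_neg (by linarith)]
    exact Real.rpow_le_rpow_of_exponent_le this (by push_cast; linarith)
  simp only [Nat.cast_one, Real.one_rpow, one_div]
  linarith

theorem rough_one {n : ℕ} (hn : n ≠ 0) : Rough 1 n := ⟨hn, fun _ hp _ => hp.one_lt⟩

theorem sg_le_two {r : ℝ} (hr : 2 ≤ r) {n : ℕ} (hn : n ≠ 0) : sg r n ≤ 2 := by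
  have := sg_rough hr one_ne_zero (rough_one hn)
  norm_num at this
  exact this

/-- the supremum of the values at integers without prime factors up to `N` -/
noncomputable def UU (r : ℝ) (N : ℕ) : ℝ := sSup (sg r '' {m | Rough N m})

theorem le_UU {r : ℝ} (hr : 2 ≤ r) {N m : ℕ} (h : Rough N m) : sg r m ≤ UU r N :=
  le_csSup ⟨2, by rintro _ ⟨k, hk, rfl⟩; exact sg_le_two hr hk.1⟩ ⟨m, h, rfl⟩

theorem UU_le {r : ℝ} {N : ℕ} {c : ℝ} (h : ∀ m, Rough N m → sg r m ≤ c) : UU r N ≤ c :=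
  csSup_le ⟨_, 1, ⟨one_ne_zero, fun p hp h => absurd (Nat.dvd_one.1 h) hp.ne_one⟩, rfl⟩
    (by rintro _ ⟨k, hk, rfl⟩; exact h k hk)

theorem one_le_UU {r : ℝ} (hr : 2 ≤ r) (N : ℕ) : 1 ≤ UU r N :=
  (sg_one r).symm.le.trans
    (le_UU hr ⟨one_ne_zero, fun p hp h => absurd (Nat.dvd_one.1 h) hp.ne_one⟩)

theorem x_lt {r : ℝ} (hr : 2 ≤ r) {p : ℕ} (hp : 2 ≤ p) : (p : ℝ) ^ (-r) ≤ 1 / 4 := by
  have h1 : (2 : ℝ) ≤ p := by exact_mod_cast hp
  calc (p : ℝ) ^ (-r) ≤ (p : ℝ) ^ (-2 : ℝ) :=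
        Real.rpow_le_rpow_of_exponent_le (by linarith) (by linarith)
    _ ≤ (2 : ℝ) ^ (-2 : ℝ) := Real.rpow_le_rpow_of_nonpos (by norm_num) h1 (by norm_num)
    _ = 1 / 4 := by rw [Real.rpow_neg (by norm_num)]; norm_num

theorem geo_mul (x : ℝ) (k : ℕ) : (∑ j ∈ range (k + 1), x ^ j) * (1 - x) = 1 - x ^ (k + 1) := by
  have := geom_sum_mul x (k + 1)
  linarith

theorem UU_step {r : ℝ} (hr : 2 ≤ r) {N : ℕ} (hp : (N + 1).Prime) :
    UU r N * (1 - ((N + 1 : ℕ) : ℝ) ^ (-r)) ≤ UU r (N + 1) := by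
  set x : ℝ := ((N + 1 : ℕ) : ℝ) ^ (-r) with hx
  have hx0 : 0 ≤ x := Real.rpow_nonneg (Nat.cast_nonneg _) _
  have hx1 : x ≤ 1 / 4 := x_lt hr hp.two_le
  rw [← le_div_iff₀ (by linarith)]
  refine UU_le fun m hm => ?_
  obtain ⟨a, k, hk, rfl⟩ := Nat.exists_eq_pow_mul_and_not_dvd hm.1 (N + 1) hp.ne_one
  have hk0 : k ≠ 0 := by rintro rfl; simp at hk
  have hR : Rough (N + 1) k := ⟨hk0, fun q hq hd => by
    have := hm.2 q hq (hd.mul_left _)
    have : q ≠ N + 1 := by rintro rfl; exact hk hd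
    omega⟩
  rw [le_div_iff₀ (by linarith),
    sg_mul r (Nat.Coprime.pow_left _ ((Nat.Prime.coprime_iff_not_dvd hp).2 hk)), sg_pow r hp,
    ← hx, mul_right_comm, geo_mul]
  have h1 := le_UU hr hR
  have h2 := one_le_sg r hk0
  have h3 : 0 ≤ x ^ (a + 1) := by positivity
  nlinarith

theorem UU_step' {r : ℝ} (hr : 2 ≤ r) {N : ℕ} (hp : ¬ (N + 1).Prime) : UU r N ≤ UU r (N + 1) :=
  UU_le fun m hm => le_UU hr ⟨hm.1, fun q hq hd => by
    have := hm.2 q hq hd
    have : q ≠ N + 1 := by rintro rfl; exact hp hq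
    omega⟩

theorem fill {r : ℝ} (hr : 2 ≤ r) {Y : ℕ}
    (H : ∀ p : ℕ, p.Prime → Y < p → 1 + (p : ℝ) ^ (-r) ≤ UU r p) {t : ℝ} (h1 : 1 ≤ t)
    (h2 : t ≤ UU r Y) (j : ℕ) : ∀ ε : ℝ, 0 < ε → ∃ m : ℕ, Rough Y m ∧
      (∀ p : ℕ, p.Prime → p ∣ m → p ≤ Y + j) ∧ sg r m ≤ t ∧
      t ≤ sg r m * UU r (Y + j) * (1 + ε) := by
  induction j with
  | zero =>
    intro ε hε
    refine ⟨1, ⟨one_ne_zero, fun p hp h => absurd (Nat.dvd_one.1 h) hp.ne_one⟩,
      fun p hp h => absurd (Nat.dvd_one.1 h) hp.ne_one, by rwa [sg_one], ?_⟩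
    rw [sg_one, add_zero]
    nlinarith
  | succ j ih =>
    intro ε hε
    obtain ⟨e, he0, he⟩ : ∃ e : ℝ, 0 < e ∧ (1 + e) * (1 + e) ≤ 1 + ε :=
      ⟨min 1 (ε / 3), by positivity, by
        have := min_le_left 1 (ε / 3)
        have := min_le_right 1 (ε / 3)
        have : 0 < min 1 (ε / 3) := by positivity
        nlinarith⟩
    obtain ⟨m, hm, hm', h3, h4⟩ := ih e he0
    have hs := one_le_sg r hm.1
    have hU := one_le_UU hr (Y + j + 1)
    by_cases hp : (Y + j + 1).Prime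
    · set x : ℝ := ((Y + j + 1 : ℕ) : ℝ) ^ (-r) with hx
      have hx0 : 0 ≤ x := Real.rpow_nonneg (Nat.cast_nonneg _) _
      have hx1 : x ≤ 1 / 4 := x_lt hr hp.two_le
      have hst := UU_step hr hp
      have hH := H _ hp (by omega)
      rw [← hx] at hst hH
      set g : ℕ → ℝ := fun k => ∑ i ∈ range (k + 1), x ^ i with hg
      have hg1 : ∀ k, 1 ≤ g k := fun k => by
        simp only [hg]
        rw [sum_range_succ']
        have : 0 ≤ ∑ i ∈ range k, x ^ (i + 1) := sum_nonneg fun _ _ => by positivity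
        simpa using this
      have key : ∃ a, sg r m * g a ≤ t ∧ t ≤ sg r m * g a * UU r (Y + j + 1) * (1 + ε) := by
        by_cases hc : ∃ a, t < sg r m * g (a + 1)
        · classical
          refine ⟨Nat.find hc, ?_, ?_⟩
          · rcases h0 : Nat.find hc with _ | b
            · simpa [hg] using h3
            · exact not_lt.1 (Nat.find_min hc (by omega : b < Nat.find hc))
          · have h5 := Nat.find_spec hc
            set a := Nat.find hc
            have h6 : g (a + 1) ≤ g a * (1 + x) := by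
              have e1 : g (a + 1) = x * g a + 1 := by
                simp only [hg]
                rw [sum_range_succ', mul_sum]
                simp [pow_succ']
              have := hg1 a
              nlinarith
            have h7 : 0 ≤ sg r m * g a := mul_nonneg (by linarith) (by linarith [hg1 a])
            calc t ≤ sg r m * (g a * (1 + x)) := h5.le.trans (by gcongr)
              _ = sg r m * g a * (1 + x) * 1 := by ring
              _ ≤ _ := by gcongr; linarith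
        · push Not at hc
          obtain ⟨a, ha⟩ := exists_pow_lt_of_lt_one (show 0 < e / (1 + e) by positivity)
            (show x < 1 by linarith)
          refine ⟨a + 1, hc a, ?_⟩
          have h5 : g (a + 1) * (1 - x) = 1 - x ^ (a + 1 + 1) := geo_mul x (a + 1)
          have h6 : x ^ (a + 1 + 1) ≤ x ^ a := pow_le_pow_of_le_one hx0 (by linarith) (by omega)
          have h7 : 1 ≤ g (a + 1) * (1 - x) * (1 + e) := by
            rw [lt_div_iff₀ (by positivity)] at ha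
            rw [h5]
            nlinarith
          have hU0 := one_le_UU hr (Y + j)
          have h8 : UU r (Y + j) ≤ g (a + 1) * UU r (Y + j + 1) * (1 + e) := by
            have := hg1 (a + 1)
            calc UU r (Y + j) ≤ UU r (Y + j) * (g (a + 1) * (1 - x) * (1 + e)) := by nlinarith
              _ = g (a + 1) * (UU r (Y + j) * (1 - x)) * (1 + e) := by ring
              _ ≤ _ := by gcongr
          have := hg1 (a + 1)
          calc t ≤ sg r m * (g (a + 1) * UU r (Y + j + 1) * (1 + e)) * (1 + e) :=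
                h4.trans (by gcongr)
            _ = sg r m * g (a + 1) * UU r (Y + j + 1) * ((1 + e) * (1 + e)) := by ring
            _ ≤ _ := by gcongr
      obtain ⟨a, h5, h6⟩ := key
      have hco : m.Coprime ((Y + j + 1) ^ a) :=
        Nat.Coprime.pow_right _ ((Nat.Prime.coprime_iff_not_dvd hp).2 fun hd => by
          have := hm' _ hp hd
          omega).symm
      have e1 : sg r (m * (Y + j + 1) ^ a) = sg r m * g a := by rw [sg_mul r hco, sg_pow r hp]
      refine ⟨m * (Y + j + 1) ^ a, ⟨mul_ne_zero hm.1 (pow_ne_zero _ hp.ne_zero), fun q hq hd => ?_⟩,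
        fun q hq hd => ?_, by rwa [e1], by rwa [e1]⟩
      · rcases (Nat.Prime.dvd_mul hq).1 hd with h | h
        · exact hm.2 q hq h
        · have := (Nat.prime_dvd_prime_iff_eq hq hp).1 (hq.dvd_of_dvd_pow h)
          omega
      · rcases (Nat.Prime.dvd_mul hq).1 hd with h | h
        · have := hm' q hq h
          omega
        · have := (Nat.prime_dvd_prime_iff_eq hq hp).1 (hq.dvd_of_dvd_pow h)
          omega
    · refine ⟨m, hm, fun q hq hd => (hm' q hq hd).trans (by omega), h3, h4.trans ?_⟩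
      have := UU_step' hr hp
      have hU0 := one_le_UU hr (Y + j)
      rw [← add_assoc]
      gcongr
      nlinarith

theorem split (Y : ℕ) (n : ℕ) : n ≠ 0 → ∃ a m : ℕ, n = a * m ∧ a ≠ 0 ∧
    (∀ p : ℕ, p.Prime → p ∣ a → p ≤ Y) ∧ Rough Y m := by
  induction n using induction_on_primes with
  | zero => simp
  | one =>
    exact fun _ => ⟨1, 1, rfl, one_ne_zero, fun p hp h => absurd (Nat.dvd_one.1 h) hp.ne_one,
      one_ne_zero, fun p hp h => absurd (Nat.dvd_one.1 h) hp.ne_one⟩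
  | prime_mul p k hp ih =>
    intro h
    obtain ⟨a, m, rfl, ha, ha', hm⟩ := ih (right_ne_zero_of_mul h)
    by_cases hY : p ≤ Y
    · refine ⟨p * a, m, by ring, mul_ne_zero hp.ne_zero ha, fun q hq hd => ?_, hm⟩
      rcases (Nat.Prime.dvd_mul hq).1 hd with h | h
      · rwa [(Nat.prime_dvd_prime_iff_eq hq hp).1 h]
      · exact ha' q hq h
    · refine ⟨a, p * m, by ring, ha, ha', mul_ne_zero hp.ne_zero hm.1, fun q hq hd => ?_⟩
      rcases (Nat.Prime.dvd_mul hq).1 hd with h | h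
      · rw [(Nat.prime_dvd_prime_iff_eq hq hp).1 h]; omega
      · exact hm.2 q hq h

theorem Icc_sub {r : ℝ} (hr : 2 ≤ r) {Y : ℕ}
    (H : ∀ p : ℕ, p.Prime → Y < p → 1 + (p : ℝ) ^ (-r) ≤ UU r p) {a : ℕ} (ha : a ≠ 0)
    (ha' : ∀ p : ℕ, p.Prime → p ∣ a → p ≤ Y) :
    Set.Icc (sg r a) (sg r a * UU r Y) ⊆ KK r := by
  intro y hy
  have hs := one_le_sg r ha
  have hs2 := sg_le_two hr ha
  have hU2 : UU r Y ≤ 2 := UU_le fun m hm => sg_le_two hr hm.1
  set t := y / sg r a with ht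
  have h1 : 1 ≤ t := by rw [ht, le_div_iff₀ (by linarith)]; linarith [hy.1]
  have h2 : t ≤ UU r Y := by rw [ht, div_le_iff₀ (by linarith)]; linarith [hy.2]
  have hy' : y = sg r a * t := by rw [ht]; field_simp
  refine Metric.mem_closure_iff.2 fun ε hε => ?_
  obtain ⟨e, he0, he1, he⟩ : ∃ e : ℝ, 0 < e ∧ e ≤ 1 ∧ 12 * e < ε :=
    ⟨min 1 (ε / 13), by positivity, min_le_left _ _, by linarith [min_le_right 1 (ε / 13)]⟩
  obtain ⟨j, hj⟩ := exists_nat_one_div_lt he0
  obtain ⟨m, hm, -, h3, h4⟩ := fill hr H h1 h2 (j + 1) e he0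
  have hU : UU r (Y + (j + 1)) ≤ 1 + e := UU_le fun k hk => by
    refine (sg_rough hr (by omega) hk).trans ?_
    have : (1 : ℝ) / ((Y + (j + 1) : ℕ) : ℝ) ≤ 1 / ((j : ℝ) + 1) :=
      one_div_le_one_div_of_le (by positivity) (by push_cast; linarith [Nat.cast_nonneg (α := ℝ) Y])
    linarith
  have hco : a.Coprime m := Nat.coprime_of_dvd fun q hq h5 h6 => by
    have := ha' q hq h5
    have := hm.2 q hq h6
    omega
  refine ⟨sg r (a * m), ⟨a * m, Nat.one_le_iff_ne_zero.2 (mul_ne_zero ha hm.1), rfl⟩, ?_⟩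
  have hm1 := one_le_sg r hm.1
  have hm2 := sg_le_two hr hm.1
  have h5 : t ≤ sg r m * ((1 + e) * (1 + e)) := by
    calc t ≤ sg r m * (1 + e) * (1 + e) := h4.trans (by gcongr)
      _ = _ := by ring
  have h6 : t - sg r m ≤ 6 * e := by
    have h7 : (1 + e) * (1 + e) ≤ 1 + 3 * e := by nlinarith
    have h8 : sg r m * ((1 + e) * (1 + e)) ≤ sg r m * (1 + 3 * e) := by gcongr
    nlinarith
  rw [sg_mul r hco, hy', Real.dist_eq, ← mul_sub, abs_of_nonneg (by nlinarith)]
  nlinarith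

theorem UU_ge {r : ℝ} (hr : 2 ≤ r) {N : ℕ} (A : Finset ℕ) (hA : ∀ q ∈ A, q.Prime ∧ N < q) :
    1 + ∑ q ∈ A, (q : ℝ) ^ (-r) ≤ UU r N := by
  have h0 : ∏ q ∈ A, q ≠ 0 := prod_ne_zero_iff.2 fun q hq => (hA q hq).1.ne_zero
  refine le_trans ?_ (le_UU hr (m := ∏ q ∈ A, q) ⟨h0, fun p hp hd => ?_⟩)
  · have h1 : insert 1 A ⊆ (∏ q ∈ A, q).divisors := by
      intro d hd
      rcases mem_insert.1 hd with rfl | hd
      · exact Nat.one_mem_divisors.2 h0
      · exact Nat.mem_divisors.2 ⟨dvd_prod_of_mem _ hd, h0⟩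
    refine le_trans ?_ (sum_le_sum_of_subset_of_nonneg h1
      fun _ _ _ => Real.rpow_nonneg (Nat.cast_nonneg _) _)
    rw [sum_insert fun h => (hA 1 h).1.ne_one rfl]
    simp
  · obtain ⟨q, hq, hd⟩ := (Prime.dvd_finsetProd_iff hp.prime _).1 hd
    rw [(Nat.prime_dvd_prime_iff_eq hp (hA q hq).1).1 hd]
    exact (hA q hq).2

theorem upper_core {r : ℝ} (hr : 2 ≤ r) {Y : ℕ} (hY : Y ≠ 0)
    (H : ∀ p : ℕ, p.Prime → Y < p → ∃ A : Finset ℕ, (∀ q ∈ A, q.Prime ∧ p < q) ∧
      (p : ℝ) ^ (-r) ≤ ∑ q ∈ A, (q : ℝ) ^ (-r)) :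
    Finite (ConnectedComponents (KK r)) ∧
      (Nat.card (ConnectedComponents (KK r)) : ℝ) ≤ (2 * Y : ℝ) ^ r + 2 := by
  classical
  have H' : ∀ p : ℕ, p.Prime → Y < p → 1 + (p : ℝ) ^ (-r) ≤ UU r p := fun p hp h => by
    obtain ⟨A, h1, h2⟩ := H p hp h
    linarith [UU_ge hr A h1]
  have hY0 : (0 : ℝ) < 2 * Y := by positivity
  set l : ℝ := (2 * Y : ℝ) ^ (-r) with hl
  have hl0 : 0 < l := Real.rpow_pos_of_pos hY0 _
  have hlU : 1 + l ≤ UU r Y := by
    obtain ⟨q, hq, h1, h2⟩ := Nat.exists_prime_lt_and_le_two_mul Y hY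
    have h3 := UU_ge hr (N := Y) {q} (by simpa using ⟨hq, h1⟩)
    rw [sum_singleton] at h3
    have h4 : l ≤ (q : ℝ) ^ (-r) := Real.rpow_le_rpow_of_nonpos (by exact_mod_cast hq.pos)
      (by exact_mod_cast h2) (by linarith)
    linarith
  set M := ⌈1 / l⌉₊ with hM
  let g : Fin (M + 1) → ℝ := fun j => 1 + (j : ℕ) * l
  have hcl : IsClosed (KK r) := isClosed_closure
  have hcov : KK r ⊆ ⋃ j : {j : Fin (M + 1) // g j ∈ KK r},
      closure (connectedComponentIn (KK r) (g j.1)) := by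
    refine closure_minimal ?_ (isClosed_iUnion_of_finite fun _ => isClosed_closure)
    rintro _ ⟨n, hn, rfl⟩
    obtain ⟨a, m, rfl, ha, ha', hm⟩ := split Y n (Nat.one_le_iff_ne_zero.1 hn)
    have hco : a.Coprime m := Nat.coprime_of_dvd fun q hq h5 h6 => by
      have := ha' q hq h5
      have := hm.2 q hq h6
      omega
    have hs := one_le_sg r ha
    have hs2 := sg_le_two hr ha
    have hI := Icc_sub hr H' ha ha'
    have hj : ⌈(sg r a - 1) / l⌉₊ < M + 1 :=
      Nat.lt_succ_of_le (Nat.ceil_mono (div_le_div_of_nonneg_right (by linarith) hl0.le))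
    have h1 := Nat.le_ceil ((sg r a - 1) / l)
    have h2 := Nat.ceil_lt_add_one (div_nonneg (by linarith : 0 ≤ sg r a - 1) hl0.le)
    rw [div_le_iff₀ hl0] at h1
    have h2' : (⌈(sg r a - 1) / l⌉₊ : ℝ) * l ≤ sg r a - 1 + l := by
      have := mul_le_mul_of_nonneg_right h2.le hl0.le
      rwa [add_mul, div_mul_cancel₀ _ hl0.ne', one_mul] at this
    have hg : g ⟨_, hj⟩ ∈ Set.Icc (sg r a) (sg r a * UU r Y) := ⟨by simp only [g]; linarith, by
      simp only [g]; nlinarith⟩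
    refine Set.mem_iUnion.2 ⟨⟨⟨_, hj⟩, hI hg⟩, subset_closure ?_⟩
    refine isPreconnected_Icc.subset_connectedComponentIn hg hI ?_
    rw [sg_mul r hco]
    have := one_le_sg r hm.1
    have := le_UU hr hm
    exact ⟨by nlinarith, by gcongr⟩
  let f : {j : Fin (M + 1) // g j ∈ KK r} → ConnectedComponents (KK r) := fun j =>
    ConnectedComponents.mk ⟨g j.1, j.2⟩
  have hf : Function.Surjective f := by
    intro c
    obtain ⟨⟨x, hx⟩, rfl⟩ := ConnectedComponents.surjective_coe c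
    obtain ⟨j, hj⟩ := Set.mem_iUnion.1 (hcov hx)
    have h1 : x ∈ connectedComponentIn (KK r) (g j.1) :=
      isPreconnected_connectedComponentIn.closure.subset_connectedComponentIn
        (subset_closure (mem_connectedComponentIn j.2))
        (closure_minimal (connectedComponentIn_subset _ _) hcl) hj
    rw [connectedComponentIn_eq_image j.2] at h1
    obtain ⟨y, hy, rfl⟩ := h1
    exact ⟨j, (ConnectedComponents.coe_eq_coe'.2 hy).symm⟩
  refine ⟨Finite.of_surjective f hf, ?_⟩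
  have h1 : Nat.card (ConnectedComponents (KK r)) ≤ M + 1 :=
    (Nat.card_le_card_of_surjective f hf).trans
      ((Nat.card_le_card_of_injective _ Subtype.val_injective).trans (by simp))
  have h2 : (M : ℝ) < 1 / l + 1 := Nat.ceil_lt_add_one (by positivity)
  have h3 : 1 / l = (2 * Y : ℝ) ^ r := by rw [hl, Real.rpow_neg hY0.le, one_div, inv_inv]
  have h4 : (Nat.card (ConnectedComponents (KK r)) : ℝ) ≤ M + 1 := by exact_mod_cast h1
  linarith

end Pool.Agent.Lib.MP_7ffa02_nt
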