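import Pool.Agent.Lib.MP_7ffa02_nt.Short
import Pool.Agent.Lib.MP_7ffa02_nt.Core

/-! Primes in intervals of relative length `θ` beyond `exp (C log² (1/θ))`: the conclusion. -/

open Complex Filter Topology MeasureTheory ArithmeticFunction
open scoped Real

namespace Pool.Agent.Lib.MP_7ffa02_nt

theorem summ_lam : Summable fun n : ℕ => vonMangoldt n / (n : ℝ) ^ 2 := by
  refine (summable_norm_iff.2 (LSeriesSummable_vonMangoldt (s := (2 : ℝ)) (by simp))).congr
    fun n => ?_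
  rw [LSeries.norm_term_eq]
  split_ifs with h
  · simp [h]
  · simp [abs_of_nonneg vonMangoldt_nonneg]

theorem real_sum {a : ℝ} (ha : 0 < a) (u : ℝ) : ∃ R : ℝ,
    HasSum (fun n : ℕ => (1 - vonMangoldt n) * gw a u n) R ∧
      R ≤ √a * ‖∫ t : ℝ, FF ((2 : ℝ) + t * I) * GG a u ((2 : ℝ) + t * I)‖ := by
  have h := sum_int summ_two ha u
  simp_rw [← FF_two] at h
  generalize (∫ t : ℝ, FF ((2 : ℝ) + t * I) * GG a u ((2 : ℝ) + t * I)) = J at h ⊢
  have hq : 0 < √(π / a) := Real.sqrt_pos.2 (by positivity)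
  refine ⟨-(√(π / a))⁻¹ * J.re, ?_, ?_⟩
  · refine ((hasSum_re h).mul_left (-(√(π / a))⁻¹)).congr fun s => Finset.sum_congr rfl fun n _ => ?_
    rcases eq_or_ne n 0 with rfl | hn
    · simp [gw]
    beta_reduce
    rw [if_neg hn, mul_one, Pi.sub_apply, Pi.one_apply, lam, ← ofReal_one, ← ofReal_sub,
      ← ofReal_mul, ofReal_re]
    field_simp
    ring
  · have h1 : (√(π / a))⁻¹ ≤ √a := by
      rw [← Real.sqrt_inv, inv_div]
      exact Real.sqrt_le_sqrt (div_le_self ha.le (by linarith [Real.pi_gt_three]))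
    have h2 : -J.re ≤ ‖J‖ := (neg_le_abs _).trans (abs_re_le_norm J)
    calc -(√(π / a))⁻¹ * J.re = (√(π / a))⁻¹ * -J.re := by ring
      _ ≤ (√(π / a))⁻¹ * ‖J‖ := by gcongr
      _ ≤ _ := by gcongr

theorem gw_far {a u θ : ℝ} (ha : 0 < a) (hθ : 0 ≤ θ) {n : ℕ} (h : θ ≤ |u - Real.log n|) :
    gw a u n ≤ Real.exp (u + 2 * a - θ ^ 2 / (8 * a)) / (n : ℝ) ^ 2 := by
  rcases eq_or_ne n 0 with rfl | hn
  · simp [gw]
  have h0 : (0 : ℝ) < n := by positivity
  have h1 : θ ^ 2 ≤ (u - Real.log n) ^ 2 := by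
    rw [← sq_abs (u - _)]; gcongr
  have h2 : Real.exp (-(u - Real.log n) ^ 2 / (4 * a)) ≤
      Real.exp (u + 2 * a - θ ^ 2 / (8 * a)) / n := by
    rw [← Real.exp_log h0, ← Real.exp_sub, Real.log_exp, Real.exp_le_exp]
    generalize Real.log n = l at *
    have h3 : -(u - l) ^ 2 / (4 * a) - (u + 2 * a - θ ^ 2 / (8 * a) - l) =
        -(((u - l) ^ 2 - θ ^ 2) + (u - l + 4 * a) ^ 2) / (8 * a) := by
      field_simp; ring
    have h4 : 0 ≤ (((u - l) ^ 2 - θ ^ 2) + (u - l + 4 * a) ^ 2) / (8 * a) := by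
      have := sq_nonneg (u - l + 4 * a)
      exact div_nonneg (by linarith) (by positivity)
    rw [neg_div (8 * a)] at h3
    linarith
  calc gw a u n ≤ (n : ℝ)⁻¹ * (Real.exp (u + 2 * a - θ ^ 2 / (8 * a)) / n) := by
        unfold gw; gcongr
    _ = _ := by field_simp

theorem gw_near {a u : ℝ} (ha : 0 < a) (ha1 : a ≤ 1) {n : ℕ}
    (h : n ∈ Finset.Ioc ⌊Real.exp u⌋₊ ⌊Real.exp u * (1 + √a)⌋₊) :
    3 / 8 * Real.exp (-u) ≤ gw a u n := by
  have hX := Real.exp_pos u
  have hb := Real.sqrt_nonneg a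
  have hb1 : √a ≤ 1 := Real.sqrt_le_one.2 ha1
  obtain ⟨h1, h2⟩ := Finset.mem_Ioc.1 h
  rw [Nat.floor_lt hX.le] at h1
  rw [Nat.le_floor_iff (by positivity)] at h2
  have h0 : (0 : ℝ) < n := hX.trans h1
  have h3 : u ≤ Real.log n := (Real.le_log_iff_exp_le h0).2 h1.le
  have h4 : Real.log n ≤ u + √a := by
    rw [Real.log_le_iff_le_exp h0, Real.exp_add]
    exact h2.trans (by gcongr; linarith [Real.add_one_le_exp √a])
  have h5 : (u - Real.log n) ^ 2 ≤ a := by
    rw [← Real.sq_sqrt ha.le]; nlinarith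
  have h6 : 3 / 4 ≤ Real.exp (-(u - Real.log n) ^ 2 / (4 * a)) := by
    refine le_trans ?_ (Real.add_one_le_exp _)
    have : (u - Real.log n) ^ 2 / (4 * a) ≤ 1 / 4 := by
      rw [div_le_iff₀ (by positivity)]; linarith
    rw [neg_div]; linarith
  have h7 : 1 / 2 * Real.exp (-u) ≤ (n : ℝ)⁻¹ := by
    rw [Real.exp_neg, one_div, ← mul_inv]
    exact inv_anti₀ h0 (by nlinarith)
  calc 3 / 8 * Real.exp (-u) = 1 / 2 * Real.exp (-u) * (3 / 4) := by ring
    _ ≤ _ := by unfold gw; gcongr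

theorem gw_le {a : ℝ} (ha : 0 < a) (u : ℝ) (n : ℕ) : gw a u n ≤ (n : ℝ)⁻¹ := by
  refine mul_le_of_le_one_right (by positivity) (Real.exp_le_one_iff.2 ?_)
  rw [neg_div, neg_nonpos]; positivity

theorem noprime {a u θ : ℝ} (ha : 0 < a) (ha1 : a ≤ 1) (hθ : 0 ≤ θ) (hu : 0 ≤ u)
    (H : ∀ p : ℕ, p.Prime → Real.exp (u - θ) < p → Real.exp (u + θ) < p) :
    3 / 8 * (√a - Real.exp (-u)) ≤ 2 * (u + θ) * Real.exp (-u / 2 + 3 * θ / 2) +
      Real.exp (u + 2 * a - θ ^ 2 / (8 * a)) * (∑' n : ℕ, vonMangoldt n / (n : ℝ) ^ 2) +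
      √a * ‖∫ t : ℝ, FF ((2 : ℝ) + t * I) * GG a u ((2 : ℝ) + t * I)‖ := by
  classical
  obtain ⟨R, h1, h2⟩ := real_sum ha u
  set J := Finset.Ioc ⌊Real.exp u⌋₊ ⌊Real.exp u * (1 + √a)⌋₊ with hJ
  set P := (Finset.Ioc 0 ⌊Real.exp (u + θ)⌋₊).filter fun n => ¬ n.Prime with hP
  set E := Real.exp (u + 2 * a - θ ^ 2 / (8 * a)) with hE
  have s1 : HasSum (fun n => if n ∈ J then 3 / 8 * Real.exp (-u) else 0)
      (∑ n ∈ J, 3 / 8 * Real.exp (-u)) := by
    have := hasSum_sum_of_ne_finset_zero (f := fun n => if n ∈ J then 3 / 8 * Real.exp (-u) else 0)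
      (s := J) (L := SummationFilter.unconditional ℕ) fun n hn => if_neg hn
    rwa [Finset.sum_congr rfl fun n hn => if_pos hn] at this
  have s2 : HasSum (fun n => if n ∈ P then vonMangoldt n * Real.exp (θ - u) else 0)
      (∑ n ∈ P, vonMangoldt n * Real.exp (θ - u)) := by
    have := hasSum_sum_of_ne_finset_zero
      (f := fun n => if n ∈ P then vonMangoldt n * Real.exp (θ - u) else 0)
      (s := P) (L := SummationFilter.unconditional ℕ) fun n hn => if_neg hn
    rwa [Finset.sum_congr rfl fun n hn => if_pos hn] at this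
  have s3 := hasSum_le (fun n => ?_) ((s1.sub s2).sub (summ_lam.hasSum.mul_left E)) h1
  · have hX := Real.exp_pos u
    have hb := Real.sqrt_nonneg a
    have c1 : Real.exp u * √a - 1 ≤ J.card := by
      rw [hJ, Nat.card_Ioc, Nat.cast_sub (Nat.floor_le_floor (by nlinarith))]
      linarith [Nat.floor_le hX.le, Nat.lt_floor_add_one (Real.exp u * (1 + √a))]
    have c2 : 3 / 8 * (√a - Real.exp (-u)) ≤ ∑ n ∈ J, 3 / 8 * Real.exp (-u) := by
      rw [Finset.sum_const, nsmul_eq_mul]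
      calc 3 / 8 * (√a - Real.exp (-u)) = (Real.exp u * √a - 1) * (3 / 8 * Real.exp (-u)) := by
            rw [Real.exp_neg]; field_simp
        _ ≤ _ := by gcongr
    have c3 : ∑ n ∈ P, vonMangoldt n * Real.exp (θ - u) ≤
        2 * (u + θ) * Real.exp (-u / 2 + 3 * θ / 2) := by
      rw [← Finset.sum_mul, hP, ← Chebyshev.psi_sub_theta_eq_sum_not_prime]
      calc _ ≤ 2 * √(Real.exp (u + θ)) * Real.log (Real.exp (u + θ)) * Real.exp (θ - u) := by
            gcongr
            exact Chebyshev.psi_sub_theta_le (Real.one_le_exp (by positivity))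
        _ = _ := by
            rw [Real.log_exp, ← Real.exp_half, show -u / 2 + 3 * θ / 2 = (u + θ) / 2 + (θ - u) by
              ring, Real.exp_add ((u + θ) / 2)]
            ring
    linarith
  have g0 : 0 ≤ gw a u n := by unfold gw; positivity
  have l0 : 0 ≤ vonMangoldt n := vonMangoldt_nonneg
  have p1 : (if n ∈ J then 3 / 8 * Real.exp (-u) else 0) ≤ gw a u n := by
    split_ifs with h
    exacts [gw_near ha ha1 h, g0]
  have p2 : vonMangoldt n * gw a u n ≤
      (if n ∈ P then vonMangoldt n * Real.exp (θ - u) else 0) + E * (vonMangoldt n / (n : ℝ) ^ 2) := by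
    have q1 : 0 ≤ (if n ∈ P then vonMangoldt n * Real.exp (θ - u) else 0) := by
      split_ifs <;> positivity
    have q2 : 0 ≤ E * (vonMangoldt n / (n : ℝ) ^ 2) := by positivity
    by_cases hf : θ ≤ |u - Real.log n|
    · have := mul_le_mul_of_nonneg_left (gw_far ha hθ hf) l0
      rw [← hE, ← mul_div_assoc, mul_comm _ E, mul_div_assoc] at this
      linarith
    rcases eq_or_ne n 0 with rfl | hn
    · simp
    have h0 : (0 : ℝ) < n := by positivity
    obtain ⟨f1, f2⟩ := abs_lt.1 (not_le.1 hf)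
    have f3 : Real.exp (u - θ) < n := (Real.lt_log_iff_exp_lt h0).1 (by linarith)
    have f4 : (n : ℝ) < Real.exp (u + θ) := (Real.log_lt_iff_lt_exp h0).1 (by linarith)
    have f5 : n ∈ P := Finset.mem_filter.2 ⟨Finset.mem_Ioc.2 ⟨Nat.pos_of_ne_zero hn,
      Nat.le_floor f4.le⟩, fun hp => (H n hp f3).not_gt f4⟩
    have f6 : gw a u n ≤ Real.exp (θ - u) := (gw_le ha u n).trans (by
      rw [← neg_sub u, Real.exp_neg]; exact inv_anti₀ (Real.exp_pos _) f3.le)
    rw [if_pos f5]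
    linarith [mul_le_mul_of_nonneg_left f6 l0]
  linarith

theorem short0 : ∃ C : ℝ, 0 < C ∧ ∀ u θ : ℝ, 1 ≤ u → 0 < θ → θ ≤ 1 / 2 →
    C * Real.log (16 * u / θ) ^ 2 ≤ u →
      ∃ p : ℕ, p.Prime ∧ Real.exp (u - θ) < p ∧ p ≤ Real.exp (u + θ) := by
  obtain ⟨c, K, hc, hc1, hK, hC⟩ := contour
  set B := ∑' n : ℕ, vonMangoldt n / (n : ℝ) ^ 2 with hB
  have hB0 : 0 ≤ B := tsum_nonneg fun n => div_nonneg vonMangoldt_nonneg (by positivity)
  set K' := 1 + Real.exp 1 + Real.exp 2 * B + 3 * K with hK'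
  have hK0 : 0 < K' := by positivity
  refine ⟨(3 + 3 * K') / c, by positivity, fun u θ hu hθ hθ1 h => ?_⟩
  by_contra hn
  set T := 16 * u / θ with hT
  set a := θ ^ 2 / (16 * u) with ha
  have ha0 : 0 < a := by positivity
  have ha1 : a ≤ 1 := by rw [ha, div_le_one (by positivity)]; nlinarith
  have hT1 : 32 * u ≤ T := by rw [hT, le_div_iff₀ hθ]; nlinarith
  have haT : a * T ^ 2 = 16 * u := by rw [ha, hT]; field_simp
  have h1 := noprime ha0 ha1 hθ.le (u := u) (by linarith) fun p hp h1 =>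
    not_le.1 fun h2 => hn ⟨p, hp, h1, h2⟩
  have h2 := hC a u T ha0 ha1 (by linarith) (by linarith)
  rw [← hB, show u + 2 * a - θ ^ 2 / (8 * a) = 2 * a - u by rw [ha]; field_simp; ring] at h1
  generalize ‖∫ t : ℝ, FF ((2 : ℝ) + t * I) * GG a u ((2 : ℝ) + t * I)‖ = N at h1 h2
  have hl := one_le_log (show 3 ≤ T by linarith)
  set ε := Real.exp (-(u * (c / Real.log T))) with hε
  have hε0 : 0 < ε := Real.exp_pos _
  have hε1 : Real.exp (-u / 2) ≤ ε := by
    have : c / Real.log T ≤ 1 / 2 := (div_le_self hc.le hl).trans hc1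
    exact Real.exp_le_exp.2 (by nlinarith)
  have hε2 : K' * (T ^ 3 * ε) ≤ 1 / 3 := by
    have e1 : (3 + 3 * K') * Real.log T ≤ u * (c / Real.log T) := by
      rw [← mul_div_assoc, le_div_iff₀ (by linarith)]
      rw [div_mul_eq_mul_div, div_le_iff₀ hc] at h
      linarith
    have e2 : T ^ 3 * ε ≤ Real.exp (-(3 * K')) := by
      rw [← Real.exp_log (show 0 < T ^ 3 by positivity), hε, ← Real.exp_add, Real.log_pow,
        Real.exp_le_exp]
      push_cast
      nlinarith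
    have e3 : Real.exp (-(3 * K')) * (3 * K') ≤ 1 := by
      rw [Real.exp_neg, inv_mul_le_iff₀ (Real.exp_pos _)]
      linarith [Real.add_one_le_exp (3 * K')]
    nlinarith
  have hb0 : 0 < √a := Real.sqrt_pos.2 ha0
  have hbT : 1 ≤ √a * T := by
    rw [← Real.sqrt_sq (show 0 ≤ T by linarith), ← Real.sqrt_mul ha0.le, haT]
    exact Real.one_le_sqrt.2 (by linarith)
  have hq : √(π / (a / 2)) ≤ T ^ 3 := by
    refine (Real.sqrt_le_iff.2 ⟨by positivity, ?_⟩ : √(π / (a / 2)) ≤ T).trans (by nlinarith)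
    rw [div_le_iff₀ (by positivity)]
    nlinarith [Real.pi_le_four]
  have w1 : Real.exp (-u) ≤ ε := (Real.exp_le_exp.2 (by linarith)).trans hε1
  have w2 : Real.exp (u - a * T ^ 2 / 2) ≤ ε := (Real.exp_le_exp.2 (by linarith)).trans hε1
  have w3 : Real.exp (-u / 2 + 3 * θ / 2) ≤ ε * Real.exp 1 := by
    rw [Real.exp_add]; gcongr; linarith
  have w4 : Real.exp (2 * a - u) ≤ Real.exp 2 * ε := by
    rw [sub_eq_add_neg, Real.exp_add]; gcongr; linarith
  have t2 : T ^ 2 ≤ T ^ 3 := by nlinarith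
  have t1 : T ≤ √a * T ^ 3 := by nlinarith
  have v1 : N ≤ K * (3 * (T ^ 3 * ε)) := h2.trans (by
    gcongr
    have : Real.exp (u - a * T ^ 2 / 2) * (√(π / (a / 2)) + T ^ 2) ≤ ε * (T ^ 3 + T ^ 3) := by
      gcongr
    linarith)
  have v2 : ε ≤ √a * (T ^ 3 * ε) := by nlinarith
  have v3 : 2 * (u + θ) * Real.exp (-u / 2 + 3 * θ / 2) ≤ √a * T ^ 3 * (ε * Real.exp 1) :=
    mul_le_mul (by linarith) w3 (Real.exp_pos _).le (by positivity)
  have v4 : Real.exp (2 * a - u) * B ≤ Real.exp 2 * (√a * (T ^ 3 * ε)) * B := by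
    gcongr; exact w4.trans (by gcongr)
  have v5 : √a * N ≤ √a * (K * (3 * (T ^ 3 * ε))) := by gcongr
  have v6 : √a * (K' * (T ^ 3 * ε)) ≤ √a * (1 / 3) := by gcongr
  rw [hK'] at v6
  nlinarith

theorem short1 : ∃ C : ℝ, 1 ≤ C ∧ ∀ r u : ℝ, 3 ≤ r → C * Real.log r ^ 2 ≤ u →
    ∃ p : ℕ, p.Prime ∧ Real.exp (u - 1 / (6 * r)) < p ∧ p ≤ Real.exp (u + 1 / (6 * r)) := by
  obtain ⟨C, hC, H⟩ := short0
  refine ⟨156 * C + (96 * C) ^ 2 + 1, by nlinarith, fun r u hr h => ?_⟩
  have hl := one_le_log hr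
  have hl2 : 1 ≤ Real.log r ^ 2 := by nlinarith
  have h1 : 156 * C * Real.log r ^ 2 + (96 * C) ^ 2 + 1 ≤ u := by nlinarith
  have h0 : 0 ≤ C * Real.log r ^ 2 := by positivity
  have hu : 1 ≤ u := by nlinarith
  refine H u _ hu (by positivity) (by rw [div_le_iff₀ (by positivity)]; linarith) ?_
  have e1 : Real.log (16 * u / (1 / (6 * r))) = Real.log 96 + Real.log r + Real.log u := by
    rw [← Real.log_mul (by positivity) (by positivity), ← Real.log_mul (by positivity)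
      (by positivity)]
    congr 1
    field_simp
    norm_num
  have e2' : Real.log 96 ≤ 5 := by
    have : Real.log 96 ≤ Real.log (2 ^ 7) := Real.log_le_log (by norm_num) (by norm_num)
    rw [Real.log_pow] at this
    push_cast at this
    linarith [Real.log_two_lt_d9]
  have e3 : 0 ≤ Real.log 96 := Real.log_nonneg (by norm_num)
  obtain ⟨w, hw0, hw⟩ : ∃ w : ℝ, 0 < w ∧ w ^ 4 = u := ⟨√(√u), by positivity, by
    rw [show 4 = 2 * 2 by rfl, pow_mul, Real.sq_sqrt (by positivity), Real.sq_sqrt (by positivity)]⟩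
  have e4 : Real.log u ≤ 4 * w := by
    rw [← hw, Real.log_pow]
    push_cast
    linarith [Real.log_le_sub_one_of_pos hw0]
  have e5 : 0 ≤ Real.log u := Real.log_nonneg hu
  have e6 : 96 * C ≤ w ^ 2 := by
    refine le_of_sq_le_sq ?_ (by positivity)
    nlinarith
  have e7 : (Real.log 96 + Real.log r + Real.log u) ^ 2 ≤
      3 * (26 * Real.log r ^ 2 + 16 * w ^ 2) := by
    have : Real.log 96 ^ 2 ≤ 25 := by nlinarith
    have : Real.log u ^ 2 ≤ 16 * w ^ 2 := by nlinarith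
    nlinarith [sq_nonneg (Real.log 96 - Real.log r), sq_nonneg (Real.log 96 - Real.log u),
      sq_nonneg (Real.log r - Real.log u)]
  have e8 : 96 * C * w ^ 2 ≤ u := by
    rw [← hw, show w ^ 4 = w ^ 2 * w ^ 2 by ring]; gcongr
  rw [e1]
  nlinarith [mul_le_mul_of_nonneg_left e7 hC.le]

theorem upper : ∃ C : ℝ, ∀ r : ℝ, 3 ≤ r → Finite (ConnectedComponents (KK r)) ∧
    (Nat.card (ConnectedComponents (KK r)) : ℝ) ≤ Real.exp (C * r * Real.log r ^ 2) := by
  obtain ⟨C, hC, H⟩ := short1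
  refine ⟨C + 3, fun r hr => ?_⟩
  have hl := one_le_log hr
  have hl2 : 1 ≤ Real.log r ^ 2 := by nlinarith
  have hE := Real.one_le_exp (show 0 ≤ C * Real.log r ^ 2 by positivity)
  obtain ⟨h1, h2⟩ := upper_core (r := r) (by linarith) (Y := ⌈Real.exp (C * Real.log r ^ 2)⌉₊)
    (Nat.ceil_pos.2 (Real.exp_pos _)).ne' fun p hp hY => by
      have hp0 : (0 : ℝ) < p := by exact_mod_cast hp.pos
      have h3 : C * Real.log r ^ 2 ≤ Real.log p :=
        (Real.le_log_iff_exp_le hp0).2 ((Nat.le_ceil _).trans (by exact_mod_cast hY.le))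
      set θ := 1 / (6 * r) with hθ
      have hθ0 : 0 < θ := by positivity
      have hθr : θ * r = 1 / 6 := by rw [hθ]; field_simp
      obtain ⟨a, a1, a2, a3⟩ := H r (Real.log p + θ) hr (by linarith)
      obtain ⟨b, b1, b2, b3⟩ := H r (Real.log p + 3 * θ) hr (by linarith)
      obtain ⟨c, c1, c2, c3⟩ := H r (Real.log p + 5 * θ) hr (by linarith)
      rw [← hθ] at a2 a3 b2 b3 c2 c3
      rw [add_sub_cancel_right, Real.exp_log hp0] at a2
      have ab : (a : ℝ) < b := a3.trans_lt (lt_of_eq_of_lt (by congr 1; ring) b2)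
      have bc : (b : ℝ) < c := b3.trans_lt (lt_of_eq_of_lt (by congr 1; ring) c2)
      have hc : (p : ℝ) ^ (-r) / 3 ≤ (c : ℝ) ^ (-r) := by
        refine le_trans ?_ (Real.rpow_le_rpow_of_nonpos (by linarith) c3 (by linarith))
        rw [← Real.exp_mul, Real.rpow_def_of_pos hp0, show (Real.log p + 5 * θ + θ) * -r =
          Real.log p * -r - 1 by linarith, Real.exp_sub]
        gcongr
        linarith [Real.exp_one_lt_d9]
      have hb : (c : ℝ) ^ (-r) ≤ (b : ℝ) ^ (-r) :=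
        Real.rpow_le_rpow_of_nonpos (by linarith) bc.le (by linarith)
      have ha : (b : ℝ) ^ (-r) ≤ (a : ℝ) ^ (-r) :=
        Real.rpow_le_rpow_of_nonpos (by linarith) ab.le (by linarith)
      have pa : p < a := by exact_mod_cast a2
      have ab' : a < b := by exact_mod_cast ab
      have bc' : b < c := by exact_mod_cast bc
      refine ⟨{a, b, c}, fun q hq => ?_, ?_⟩
      · simp only [Finset.mem_insert, Finset.mem_singleton] at hq
        rcases hq with rfl | rfl | rfl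
        exacts [⟨a1, pa⟩, ⟨b1, by omega⟩, ⟨c1, by omega⟩]
      · rw [Finset.sum_insert (by simp; omega), Finset.sum_pair (by omega)]
        linarith
  refine ⟨h1, h2.trans ?_⟩
  have h3 : 2 * (⌈Real.exp (C * Real.log r ^ 2)⌉₊ : ℝ) ≤ Real.exp ((C + 2) * Real.log r ^ 2) := by
    have h4 := (Nat.ceil_lt_add_one (Real.exp_pos (C * Real.log r ^ 2)).le).le
    have h5 : 4 ≤ Real.exp (2 * Real.log r ^ 2) := by
      rw [two_mul, Real.exp_add]
      nlinarith [Real.add_one_le_exp (Real.log r ^ 2)]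
    rw [add_mul, Real.exp_add]
    nlinarith
  have h4 := Real.rpow_le_rpow (by positivity) h3 (show 0 ≤ r by linarith)
  rw [← Real.exp_mul] at h4
  have h5 := Real.one_le_exp (show 0 ≤ (C + 2) * Real.log r ^ 2 * r by positivity)
  have h6 : 3 ≤ Real.exp (r * Real.log r ^ 2) := by
    nlinarith [Real.add_one_le_exp (r * Real.log r ^ 2)]
  rw [show (C + 3) * r * Real.log r ^ 2 = (C + 2) * Real.log r ^ 2 * r + r * Real.log r ^ 2 by ring,
    Real.exp_add]
  nlinarith

end Pool.Agent.Lib.MP_7ffa02_nt
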